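import Pool.Agent.Work.MP_ccc26a_nt.CaseBClique

/-!
# Modular forms with complete 2-divisor and the Leech lattice

The answer to Q1 is positive: if `L` is an even positive-definite lattice without 2-roots and
`M = 2U ⊕ L(-1)` admits a modular form with complete 2-divisor, then `L` satisfies the `Norm₂`
condition and is isometric to a primitive sublattice of the Leech lattice.

* `Roots`, `Cone`, `Tube`, `Strip`, `Weyl`: from the invariance of the form under the stable
  orthogonal group and from its divisor one gets a Weyl vector, and from this, that every point of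
  `L ⊗ ℚ` has distance at most `√2` from `L` (`covering_rat`).
* `Modular`, `Comp`, `Group`, `ToTube`: translation to the tube domain.
* `Cover`: deepest holes. `Leech`: an explicit Leech lattice.
* `Frame`, `EvenCase`, `Code`, `OddCase`, `CaseA`: lattices with a vector of norm 8.
* `Finish`, `Confs`, `CaseB`, `CaseBPath`, `CaseBClique`: lattices without a vector of norm 8.
-/

set_option autoImplicit false

namespace Pool.Agent.Results.MP_ccc26a_nt.CompleteTwoDivisor

open Pool.Agent.Work.MP_ccc26a_nt

/-- Let `L` be the even positive-definite lattice with Gram matrix `G`, without vectors of norm 2,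
and let `D` be (the affine cone over) a component of the period domain of `M = 2U ⊕ L(-1)`. If
there is a modular form on `D` of some integral weight and some character for the stable orthogonal
group with complete 2-divisor, then `L` satisfies the `Norm₂` condition and `L` is isometric to a
primitive sublattice of the Leech lattice. -/
theorem result {r : ℕ} (G : Matrix (Fin r) (Fin r) ℤ) (hG : IsEvenPosDef G)
    (h2 : ∀ x : Fin r → ℤ, bL G x x ≠ 2) (D : Set (MVec ℂ r)) (hD : IsPeriodComponent G D)
    (hF : ∃ (k : ℤ) (χ : stableOrth G D →* ℂˣ) (F : MVec ℂ r → ℂ),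
      IsModularForm G D k χ F ∧ HasCompleteTwoDivisor G D F) :
    NormTwo G ∧ ∃ Λ : Matrix (Fin 24) (Fin 24) ℤ, IsLeech Λ ∧ PrimitivelyEmbeds G Λ := by
  obtain ⟨ε, hε, rfl⟩ := component_eq hG hD
  obtain ⟨k, χ, F, hF, hdiv⟩ := hF
  have hcov : CovRat G := fun C q hq =>
    covering_rat hG h2 (tubeData_of_modularForm hG hε hF hdiv) C q hq
  exact ⟨normTwo_of_cov hG hcov, lattice_theorem hG h2 hcov⟩

end Pool.Agent.Results.MP_ccc26a_nt.CompleteTwoDivisor
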